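import Pool.Agent.W312.WT.StmP

/-!
# (POU) The output is computable in polynomial time
-/

set_option autoImplicit false

namespace Pool.Agent.W358.WT

open Pool.Agent.NPC Pool.Agent.W312.WT

theorem outL_eq (p : ℕ) : ∀ (l : List (Jb × ℕ)) (s a : ℕ),
    outL p s a l = ((l.zip (a :: l.map Prod.snd)).zipIdx s).map
      (fun q => (q.1.1.1.2.2, pcs p q.2 q.1.2 q.1.1.2))
  | [], s, a => by simp [outL]
  | e :: l, s, a => by
    rw [outL, outL_eq p l (s + 1) e.2]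
    simp

theorem poly_pcs {α : Type} [TEnc α] {p s a t : α → ℕ} (hp : NPC.Poly p) (hs : NPC.Poly s) (ha : NPC.Poly a)
    (ht : NPC.Poly t) : NPC.Poly (fun x => pcs (p x) (s x) (a x) (t x)) := by
  have h1 : NPC.Poly (fun x => s x * p x - a x) := NPC.Poly.sub (NPC.Poly.mul hs hp) ha
  have h2 : NPC.Poly (fun x => (s x + 1) * p x - t x) := NPC.Poly.sub (NPC.Poly.mul (NPC.Poly.succ hs) hp) ht
  exact NPC.Poly.append
    (NPC.Poly.ite (NPC.Poly.decide_lt ha ht)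
      (NPC.Poly.cons (NPC.Poly.pair (NPC.Poly.const false) (NPC.Poly.pair ha ht)) (NPC.Poly.const [])) (NPC.Poly.const []))
    (NPC.Poly.ite (NPC.Poly.decide_lt h1 h2)
      (NPC.Poly.cons (NPC.Poly.pair (NPC.Poly.const true) (NPC.Poly.pair h1 h2)) (NPC.Poly.const [])) (NPC.Poly.const []))

theorem poly_outL {α : Type} [TEnc α] {p : α → ℕ} {l : α → List (Jb × ℕ)} (hp : NPC.Poly p)
    (hl : NPC.Poly l) : NPC.Poly (fun x => outL (p x) 0 0 (l x)) := by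
  have h1 : NPC.Poly (fun x => 0 :: (l x).map Prod.snd) :=
    NPC.Poly.cons (NPC.Poly.const 0) (NPC.Poly.map (F := fun _ e => Prod.snd e) hl (NPC.Poly.snd (NPC.Poly.snd NPC.Poly.id)))
  refine (NPC.Poly.map (F := fun x (q : ((Jb × ℕ) × ℕ) × ℕ) =>
    (q.1.1.1.2.2, pcs (p x) q.2 q.1.2 q.1.1.2)) (NPC.Poly.zipIdx (NPC.Poly.zip hl h1)) ?_).congr
      fun x => (outL_eq (p x) (l x) 0 0).symm
  have e : NPC.Poly (fun y : α × ((Jb × ℕ) × ℕ) × ℕ => y.2.1.1) :=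
    NPC.Poly.fst (NPC.Poly.fst (NPC.Poly.snd NPC.Poly.id))
  exact NPC.Poly.pair (NPC.Poly.snd (NPC.Poly.snd (NPC.Poly.fst e)))
    (poly_pcs (hp.comp (NPC.Poly.fst NPC.Poly.id)) (NPC.Poly.snd (NPC.Poly.snd NPC.Poly.id))
      (NPC.Poly.snd (NPC.Poly.fst (NPC.Poly.snd NPC.Poly.id))) (NPC.Poly.snd e))

/-- (POU) -/
theorem proof_POut : Pool.Agent.W312.WT.POut := by
  unfold POut
  refine NPC.Poly.map (α := ℕ × List (ℕ × ℕ) × List (Jb × ℕ))
    (l := fun q => List.range q.2.1.length)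
    (F := fun q j => (outL q.1 0 0 q.2.2).flatMap fun r => if r.1 = j then r.2 else [])
    (NPC.Poly.range_length (NPC.Poly.fst (NPC.Poly.snd NPC.Poly.id))) ?_
  refine NPC.Poly.flatMap (α := (ℕ × List (ℕ × ℕ) × List (Jb × ℕ)) × ℕ)
    (l := fun x => outL x.1.1 0 0 x.1.2.2)
    (F := fun x r => if r.1 = x.2 then r.2 else [])
    (poly_outL (NPC.Poly.fst (NPC.Poly.fst NPC.Poly.id)) (NPC.Poly.snd (NPC.Poly.snd (NPC.Poly.fst NPC.Poly.id)))) ?_
  exact NPC.Poly.ite (NPC.Poly.decide_eq (NPC.Poly.fst (NPC.Poly.snd NPC.Poly.id)) (NPC.Poly.snd (NPC.Poly.fst NPC.Poly.id)))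
    (NPC.Poly.snd (NPC.Poly.snd NPC.Poly.id)) (NPC.Poly.const [])

end Pool.Agent.W358.WT
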